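import Pool.Agent.H2.ST.Targets

/-!
Symplectic torus actions on affine space: module CNT (polynomial growth).
-/

set_option autoImplicit false

namespace Pool.Agent.H48.ST2

open Pool.Agent.H2.ST MvPolynomial

theorem pf_CNT : T_CNT := by
  intro d m B hdm
  obtain ⟨N, hN⟩ : ∃ N : ℕ, N = m.factorial * (2 * B + 1) ^ d := ⟨_, rfl⟩
  refine ⟨N, ?_⟩
  have h1 : (N + 1) ^ m ≤ m.factorial * Nat.choose (N + m) m := by
    rw [← Nat.ascFactorial_eq_factorial_mul_choose]
    exact Nat.pow_succ_le_ascFactorial (N + 1) m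
  have h2 : (2 * (B * N) + 1) ^ d ≤ (2 * B + 1) ^ d * (N + 1) ^ d := by
    rw [← mul_pow]
    refine Nat.pow_le_pow_left ?_ d
    nlinarith [Nat.zero_le B, Nat.zero_le N]
  have h3 : m.factorial * (2 * (B * N) + 1) ^ d < m.factorial * Nat.choose (N + m) m := by
    calc m.factorial * (2 * (B * N) + 1) ^ d
        ≤ m.factorial * ((2 * B + 1) ^ d * (N + 1) ^ d) := Nat.mul_le_mul_left _ h2
      _ = N * (N + 1) ^ d := by rw [← mul_assoc, ← hN]
      _ < (N + 1) * (N + 1) ^ d := Nat.mul_lt_mul_of_pos_right (Nat.lt_succ_self N)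
          (Nat.pow_pos (Nat.succ_pos N))
      _ = (N + 1) ^ (d + 1) := by rw [pow_succ, mul_comm]
      _ ≤ (N + 1) ^ m := Nat.pow_le_pow_right (Nat.succ_pos N) hdm
      _ ≤ m.factorial * Nat.choose (N + m) m := h1
  exact Nat.lt_of_mul_lt_mul_left h3

end Pool.Agent.H48.ST2
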