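import Pool.Agent.H2.ST.Targets

/-!
Symplectic torus actions on affine space: module CON (the product of the two semi-invariants is a
multiple of the moment map).
-/

set_option autoImplicit false

namespace Pool.Agent.H48.ST2

open Pool.Agent.H2.ST MvPolynomial

section
variable {k : Type} [Field k] {m : ℕ} {W : ℤ → Submodule k (Pol k m)} {r : ℤ}
  {u v H : Pol k m}

/-- the invariants commuting with `u`, as a subalgebra -/
noncomputable def KK (hW : PGr W) (u : Pol k m) : Subalgebra k (Pol k m) :=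
  zeroPart hW.toGr ⊓ Cen {u}

theorem mem_KK {hW : PGr W} {f : Pol k m} : f ∈ KK hW u ↔ f ∈ Ku W u := by
  unfold KK
  rw [Algebra.mem_inf]
  constructor
  · rintro ⟨h1, h2⟩
    exact ⟨h1, h2 u rfl⟩
  · rintro ⟨h1, h2⟩
    refine ⟨h1, fun g hg => ?_⟩
    have hg' : g = u := hg
    rw [hg']
    exact h2

theorem KK_br {hW : PGr W} {f g : Pol k m} (hf : f ∈ KK hW u) (hg : g ∈ KK hW u) :
    br f g ∈ KK hW u := by
  unfold KK at hf hg ⊢
  rw [Algebra.mem_inf] at hf hg ⊢
  refine ⟨?_, Cen_br hf.2 hg.2⟩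
  have h1 := hW.pbr 0 0 f g hf.1 hg.1
  rw [add_zero] at h1
  exact h1

/-- brackets of polynomials in `H` -/
theorem br_eval {f : Pol k m} (hf : br f H = 0) (P : Polynomial (Pol k m)) :
    br f (P.eval H) = ∑ i ∈ Finset.range (P.natDegree + 1), br f (P.coeff i) * H ^ i := by
  rw [Polynomial.eval_eq_sum_range, br_sum]
  refine Finset.sum_congr rfl fun i _ => ?_
  rw [br_mul, br_pow, hf, mul_zero, mul_zero, zero_add, mul_comm]

/-- the derivation applied to the coefficients -/
noncomputable def dP (f : Pol k m) (P : Polynomial (Pol k m)) : Polynomial (Pol k m) :=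
  ∑ i ∈ Finset.range (P.natDegree + 1), Polynomial.C (br f (P.coeff i)) * Polynomial.X ^ i

theorem dP_coeff (f : Pol k m) (P : Polynomial (Pol k m)) (j : ℕ) :
    (dP f P).coeff j = br f (P.coeff j) := by
  unfold dP
  rw [Polynomial.finsetSum_coeff]
  simp only [Polynomial.coeff_C_mul_X_pow]
  rw [Finset.sum_ite_eq]
  by_cases hj : j ∈ Finset.range (P.natDegree + 1)
  · rw [if_pos hj]
  · rw [if_neg hj, Polynomial.coeff_eq_zero_of_natDegree_lt, br_zero]
    rw [Finset.mem_range] at hj
    omega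

theorem dP_eval {f : Pol k m} (hf : br f H = 0) (P : Polynomial (Pol k m)) :
    (dP f P).eval H = br f (P.eval H) := by
  rw [br_eval hf]
  unfold dP
  rw [Polynomial.eval_finsetSum]
  refine Finset.sum_congr rfl fun i _ => ?_
  rw [Polynomial.eval_mul, Polynomial.eval_C, Polynomial.eval_pow, Polynomial.eval_X]

/-- polynomials in `H` with coefficients in a subalgebra -/
theorem eval_mem_sub {S : Subalgebra k (Pol k m)} {P : Polynomial (Pol k m)}
    (hP : ∀ i, P.coeff i ∈ S) (hH : H ∈ S) : P.eval H ∈ S := by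
  rw [Polynomial.eval_eq_sum_range]
  exact S.sum_mem fun i _ => S.mul_mem (hP i) (S.pow_mem hH i)

theorem mul_coeff_mem {S : Subalgebra k (Pol k m)} {P Q : Polynomial (Pol k m)}
    (hP : ∀ i, P.coeff i ∈ S) (hQ : ∀ i, Q.coeff i ∈ S) (i : ℕ) : (P * Q).coeff i ∈ S := by
  rw [Polynomial.coeff_mul]
  exact S.sum_mem fun x _ => S.mul_mem (hP _) (hQ _)

/-- the elements `a` such that `p` divides `{p, a}` -/
noncomputable def DV (p : Pol k m) : Subalgebra k (Pol k m) where
  carrier := {a | p ∣ br p a}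
  mul_mem' := by
    intro a b ha hb
    have ha' : p ∣ br p a := ha
    have hb' : p ∣ br p b := hb
    change p ∣ br p (a * b)
    rw [br_mul]
    exact dvd_add (hb'.mul_left a) (ha'.mul_left b)
  add_mem' := by
    intro a b ha hb
    have ha' : p ∣ br p a := ha
    have hb' : p ∣ br p b := hb
    change p ∣ br p (a + b)
    rw [br_add]
    exact dvd_add ha' hb'
  algebraMap_mem' := by
    intro c
    change p ∣ br p (C c)
    rw [br_C]
    exact dvd_zero p

theorem mem_DV {p a : Pol k m} : a ∈ DV p ↔ p ∣ br p a := Iff.rfl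

/-- a subalgebra which contains `W 0`, `u` and `v` is everything -/
theorem all_mem (h1 : One W r u v) (S : Subalgebra k (Pol k m)) (h0 : ∀ f ∈ W 0, f ∈ S)
    (hu : u ∈ S) (hv : v ∈ S) (f : Pol k m) : f ∈ S := by
  have hhom : ∀ (e : ℤ) (g : Pol k m), g ∈ W e → g ∈ S := by
    intro e g hg
    by_cases hre : r ∣ e
    · obtain ⟨j, hj⟩ := hre
      rcases Int.le_total 0 j with h | h
      · obtain ⟨n, hn⟩ := Int.eq_ofNat_of_zero_le h
        rw [hj, hn] at hg
        obtain ⟨q, hq, he⟩ := h1.du n g hg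
        rw [he]
        exact S.mul_mem (S.pow_mem hu n) (h0 q hq)
      · obtain ⟨n, hn⟩ := Int.eq_ofNat_of_zero_le (Int.neg_nonneg.2 h)
        have hj' : e = -(r * (n : ℤ)) := by
          rw [hj, ← hn]
          ring
        rw [hj'] at hg
        obtain ⟨q, hq, he⟩ := h1.dv n g hg
        rw [he]
        exact S.mul_mem (S.pow_mem hv n) (h0 q hq)
    · rw [h1.dz e hre g hg]
      exact S.zero_mem
  rw [← cmp_sum h1.toGr f]
  unfold Finsupp.sum
  exact S.sum_mem fun e _ => hhom e _ (cmp_mem h1.toGr f e)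

/-- an invariant divisible by `u` is divisible by `u v` -/
theorem dvd_uv (h1 : One W r u v) {a : Pol k m} (ha : a ∈ W 0) (hd : u ∣ a) :
    ∃ g ∈ W 0, a = u * v * g := by
  obtain ⟨b, hb⟩ := hd
  have hb1 : b ∈ W (-r) := by
    refine mem_of_cmp h1.toGr fun e he => ?_
    have h2 := cmp_mul_of_mem h1.toGr h1.hu b e
    rw [mul_comm b u, ← hb, cmp_of_mem h1.toGr ha, Finsupp.single_apply,
      if_neg (by omega)] at h2
    rcases mul_eq_zero.1 h2.symm with h3 | h3
    · exact h3
    · exact absurd h3 h1.pu.ne_zero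
  have hb2 : b ∈ W (-(r * ((1 : ℕ) : ℤ))) := by
    rw [Nat.cast_one, mul_one]
    exact hb1
  obtain ⟨g, hg, he⟩ := h1.dv 1 b hb2
  refine ⟨g, hg, ?_⟩
  rw [hb, he, pow_one, mul_assoc]

end

theorem pf_CON : T_CON := by
  intro k _ _ m W r u v H hM hgen hfree
  have hu0 := hM.pu.ne_zero
  have hv0 := hM.pv.ne_zero
  -- the Euler derivation
  have hH : ∀ f ∈ W 0, br H f = 0 := by
    intro f hf
    have h1 := hM.HE 0 f (by rw [mul_zero]; exact hf)
    rw [h1, Int.cast_zero, zero_smul]
  have hH' : ∀ f ∈ W 0, br f H = 0 := by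
    intro f hf
    rw [br_anti, hH f hf, neg_zero]
  have hHu : br H u = u := by
    have h1 := hM.HE 1 u (by rw [mul_one]; exact hM.hu)
    rw [h1, Int.cast_one, one_smul]
  have hh0 : u * v ∈ W 0 := by
    have h1 := mul_mem_gr hM.toGr hM.hu hM.hv
    rw [add_neg_cancel] at h1
    exact h1
  have hhne : u * v ≠ 0 := mul_ne_zero hu0 hv0
  obtain ⟨P, hPK, hPe⟩ := hgen (u * v) hh0
  have hPK' : ∀ i, P.coeff i ∈ KK hM.toPGr u := fun i => mem_KK.2 (hPK i)
  have hP0 : P ≠ 0 := by
    intro h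
    rw [h, Polynomial.eval_zero] at hPe
    exact hhne hPe.symm
  have hbrh : ∀ f ∈ Ku W u, br f (u * v) = u * br f v := by
    intro f hf
    rw [br_mul, hf.2, mul_zero, add_zero]
  -- step 6
  have h6 : ∀ f ∈ Ku W u, ∃ g : Pol k m, br f v = v * g ∧
      ∀ j, br f (P.coeff j) = P.coeff j * g := by
    intro f hf
    have hf' : f ∈ KK hM.toPGr u := mem_KK.2 hf
    have h1 : br f v ∈ W (-(r * ((1 : ℕ) : ℤ))) := by
      rw [Nat.cast_one, mul_one]
      have h2 := hM.pbr 0 (-r) f v hf.1 hM.hv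
      rw [zero_add] at h2
      exact h2
    obtain ⟨g, hg, he⟩ := hM.dv 1 _ h1
    rw [pow_one] at he
    obtain ⟨Q, hQK, hQe⟩ := hgen g hg
    have hQK' : ∀ i, Q.coeff i ∈ KK hM.toPGr u := fun i => mem_KK.2 (hQK i)
    have h2 : P * Q - dP f P = 0 := by
      refine hfree _ (fun i => ?_) ?_
      · rw [← mem_KK (hW := hM.toPGr), Polynomial.coeff_sub, dP_coeff]
        exact (KK hM.toPGr u).sub_mem (mul_coeff_mem hPK' hQK' i) (KK_br hf' (hPK' i))
      · rw [Polynomial.eval_sub, Polynomial.eval_mul, hPe, hQe, dP_eval (hH' f hf.1), hPe,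
          hbrh f hf, he]
        ring
    have h3 : P * Q = dP f P := sub_eq_zero.1 h2
    have hdeg : (dP f P).natDegree ≤ P.natDegree := by
      rw [Polynomial.natDegree_le_iff_coeff_eq_zero]
      intro N hN
      rw [dP_coeff, Polynomial.coeff_eq_zero_of_natDegree_lt hN, br_zero]
    have hQ : Q.natDegree = 0 := by
      by_cases hQ0 : Q = 0
      · rw [hQ0, Polynomial.natDegree_zero]
      · rw [← h3, Polynomial.natDegree_mul hP0 hQ0] at hdeg
        omega
    have hQC : Q = Polynomial.C g := by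
      have h4 := Polynomial.eq_C_of_natDegree_eq_zero hQ
      have h5 : g = Q.coeff 0 := by
        rw [← hQe]
        conv_lhs => rw [h4]
        rw [Polynomial.eval_C]
      rw [h5]
      exact h4
    refine ⟨g, he, fun j => ?_⟩
    rw [← dP_coeff, ← h3, hQC, Polynomial.coeff_mul_C]
  -- step 7
  have h7 : ∀ j, br (P.coeff j) v = 0 := by
    intro j
    obtain ⟨g, hg, hp⟩ := h6 _ (hPK j)
    have h1 := hp j
    rw [br_self] at h1
    rcases mul_eq_zero.1 h1.symm with h2 | h2
    · rw [h2, zero_br]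
    · rw [hg, h2, mul_zero]
  -- step 8
  have h8 : ∀ j, ∃ c : k, P.coeff j = C c := by
    intro j
    refine const_of_dvd _ fun s => ?_
    rw [← mem_DV]
    refine all_mem hM.toOne (DV (P.coeff j)) (fun f hf => ?_) ?_ ?_ _
    · obtain ⟨Q, hQK, hQe⟩ := hgen f hf
      rw [← hQe]
      refine eval_mem_sub (fun i => ?_) ?_
      · rw [mem_DV]
        obtain ⟨g, -, hp⟩ := h6 _ (hQK i)
        rw [br_anti, hp j, ← mul_neg]
        exact dvd_mul_right _ _
      · rw [mem_DV, hH' _ (hPK j).1]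
        exact dvd_zero _
    · rw [mem_DV, (hPK j).2]
      exact dvd_zero _
    · rw [mem_DV, h7 j]
      exact dvd_zero _
  -- step 9
  have hc0 : P.coeff 0 = 0 := by
    obtain ⟨c, hc⟩ := h8 0
    have h1 : constantCoeff (u * v) = 0 := by rw [map_mul, hM.u0, zero_mul]
    rw [← hPe, Polynomial.eval_eq_sum_range, Finset.sum_range_succ', map_add, map_sum] at h1
    have h2 : ∑ i ∈ Finset.range P.natDegree,
        constantCoeff (P.coeff (i + 1) * H ^ (i + 1)) = 0 := by
      refine Finset.sum_eq_zero fun i _ => ?_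
      rw [map_mul, map_pow, hM.Hc, pow_succ, mul_zero, mul_zero]
    rw [h2, zero_add, pow_zero, mul_one, hc, constantCoeff_C] at h1
    rw [hc, h1, C_0]
  obtain ⟨P₁, hP₁⟩ := Polynomial.X_dvd_iff.2 hc0
  obtain ⟨q, hq⟩ : ∃ q : Pol k m, q = P₁.eval H := ⟨_, rfl⟩
  have hhq : u * v = H * q := by
    rw [← hPe, hP₁, Polynomial.eval_mul, Polynomial.eval_X, hq]
  have hq0 : q ∈ W 0 := by
    have h1 : q ∈ zeroPart hM.toGr := by
      rw [hq]
      refine eval_mem_sub (fun i => ?_) hM.H0
      have h2 : P₁.coeff i = P.coeff (i + 1) := by rw [hP₁, Polynomial.coeff_X_mul]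
      rw [h2]
      exact (hPK _).1
    exact h1
  have hudvd : u ∣ H * q := by
    rw [← hhq]
    exact dvd_mul_right u v
  -- step 10
  have hunit : IsUnit q := by
    rcases hM.pu.dvd_or_dvd hudvd with h | h
    · obtain ⟨g, -, hg⟩ := dvd_uv hM.toOne hM.H0 h
      have h1 : u * v * (g * q) = u * v * 1 := by
        rw [mul_one]
        conv_rhs => rw [hhq]
        rw [← mul_assoc, ← hg]
      have h2 : g * q = 1 := mul_left_cancel₀ hhne h1
      exact isUnit_iff_exists_inv'.2 ⟨g, h2⟩
    · exfalso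
      obtain ⟨g, -, hg⟩ := dvd_uv hM.toOne hq0 h
      have h1 : u * v * (H * g) = u * v * 1 := by
        rw [mul_one]
        conv_rhs => rw [hhq, hg]
        ring
      have h2 : H * g = 1 := mul_left_cancel₀ hhne h1
      have h3 := congrArg (constantCoeff : Pol k m → k) h2
      rw [map_mul, hM.Hc, zero_mul, map_one] at h3
      exact zero_ne_one h3
  obtain ⟨c, hcu, hc⟩ := MvPolynomial.isUnit_iff_eq_C_of_isReduced.1 hunit
  have huvc : u * v = C c * H := by rw [hhq, ← hc, mul_comm]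
  have hvu : br v u = C c := by
    have h1 : br (u * v) u = u * br v u := by
      rw [mul_br, br_self, mul_zero, add_zero]
    have h2 : br (u * v) u = u * C c := by
      rw [huvc, mul_br, C_br, mul_zero, add_zero, hHu, mul_comm]
    exact mul_left_cancel₀ hu0 (h1.symm.trans h2)
  refine ⟨c, hcu.ne_zero, huvc, hvu, fun f hf => ?_⟩
  have h1 := hbrh f hf
  rw [huvc, br_mul, hH' f hf.1, br_C, mul_zero, mul_zero, add_zero] at h1
  rcases mul_eq_zero.1 h1.symm with h2 | h2
  · exact absurd h2 hu0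
  · exact h2

end Pool.Agent.H48.ST2
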