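import Pool.Agent.H2.ST.Targets

/-!
Symplectic torus actions on affine space: module NPS (the brackets with the split coordinates are
locally nilpotent).
-/

set_option autoImplicit false

namespace Pool.Agent.H48.ST2

open Pool.Agent.H2.ST MvPolynomial

theorem pf_NPS (h1 : T_NIL) : T_NPS := by
  intro k _ m Γ _ W w π u v c hS i hi f
  have hP := hS.par i hi
  have hvu := hP.vu
  have huv : br (u i) (v i) = C (-c i) := by
    rw [br_anti, hvu, C_neg]
  have hu : ∀ g : Pol k m, (ad (u i) : Pol k m → Pol k m) g = br (u i) g := ad_apply (u i)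
  have hv : ∀ g : Pol k m, (ad (v i) : Pol k m → Pol k m) g = br (v i) g := ad_apply (v i)
  constructor
  · obtain ⟨n, hn⟩ := h1 k (Pol k m) (ad (u i))
      ((Cen {u i, v i} : Set (Pol k m)) ∪ {u i, v i}) (fun s hs => by
        rcases hs with hs | hs | hs
        · refine ⟨1, ?_⟩
          rw [Function.iterate_one, hu, br_anti, hs (u i) (Or.inl rfl), neg_zero]
        · refine ⟨1, ?_⟩
          rw [Function.iterate_one, hu, hs, br_self]
        · refine ⟨2, ?_⟩
          have hs' : s = v i := hs
          rw [Function.iterate_succ_apply, Function.iterate_one, hu, hu, hs', huv, br_C]) f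
      (hP.gen f)
    refine ⟨n, ?_⟩
    rw [← hn]
    exact congrArg (fun F : Pol k m → Pol k m => F^[n] f) (funext fun g => (hu g).symm)
  · obtain ⟨n, hn⟩ := h1 k (Pol k m) (ad (v i))
      ((Cen {u i, v i} : Set (Pol k m)) ∪ {u i, v i}) (fun s hs => by
        rcases hs with hs | hs | hs
        · refine ⟨1, ?_⟩
          rw [Function.iterate_one, hv, br_anti, hs (v i) (Or.inr rfl), neg_zero]
        · refine ⟨2, ?_⟩
          have hs' : s = u i := hs
          rw [Function.iterate_succ_apply, Function.iterate_one, hv, hv, hs', hvu, br_C]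
        · refine ⟨1, ?_⟩
          have hs' : s = v i := hs
          rw [Function.iterate_one, hv, hs', br_self]) f
      (hP.gen f)
    refine ⟨n, ?_⟩
    rw [← hn]
    exact congrArg (fun F : Pol k m → Pol k m => F^[n] f) (funext fun g => (hv g).symm)

end Pool.Agent.H48.ST2
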